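import Mathlib

/-!
# Inequalities for the Eulerian numbers and their signed versions
-/

set_option autoImplicit false

namespace Pool.Agent.X17.Eul

/-- one step of the Eulerian recurrence -/
def LL (n : ℕ) (f : ℕ → ℤ) : ℕ → ℤ
  | 0 => f 0
  | k + 1 => (k + 2) * f (k + 1) + ((n + 1 - k : ℕ) : ℤ) * f k

/-- multiplication by `1 + c t` -/
def sh (c : ℤ) (f : ℕ → ℤ) : ℕ → ℤ
  | 0 => f 0
  | k + 1 => f (k + 1) + c * f k

/-- the Eulerian numbers of `n + 1` letters -/
def ee : ℕ → ℕ → ℤ
  | 0 => fun k => if k = 0 then 1 else 0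
  | n + 1 => LL n (ee n)

/-- the signed Eulerian numbers (`c = -1`) and their majorants (`c = 1`) -/
def dd (c : ℤ) : ℕ → ℕ → ℤ
  | 0 => fun k => if k = 0 then 1 else 0
  | 1 => fun k => if k = 0 then 1 else if k = 1 then c else 0
  | n + 2 => sh c (LL n (dd c n))

/-- symmetric, positive for `k ≤ n` and zero for `k > n` -/
structure Sy (n : ℕ) (f : ℕ → ℤ) : Prop where
  pos : ∀ k, k ≤ n → 0 < f k
  zero : ∀ k, n < k → f k = 0
  sym : ∀ i j, i + j = n → f i = f j

lemma Sy.nn {n : ℕ} {f : ℕ → ℤ} (h : Sy n f) (k : ℕ) : 0 ≤ f k := by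
  rcases Nat.lt_or_ge n k with h1 | h1
  · rw [h.zero k h1]
  · exact (h.pos k h1).le

lemma LL_sy {n : ℕ} {f : ℕ → ℤ} (h : Sy n f) : Sy (n + 1) (LL n f) where
  pos := by
    intro k hk
    rcases k with _ | k
    · exact h.pos 0 (Nat.zero_le _)
    · have h1 : 0 < f k := h.pos k (by omega)
      have h2 := h.nn (k + 1)
      have h3 : (0 : ℤ) < ((n + 1 - k : ℕ) : ℤ) := by
        have : 0 < n + 1 - k := by omega
        exact_mod_cast this
      show 0 < (k + 2 : ℤ) * f (k + 1) + ((n + 1 - k : ℕ) : ℤ) * f k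
      positivity
  zero := by
    intro k hk
    rcases k with _ | k
    · omega
    · show (k + 2 : ℤ) * f (k + 1) + ((n + 1 - k : ℕ) : ℤ) * f k = 0
      rw [h.zero (k + 1) (by omega)]
      rcases Nat.lt_or_ge n k with h1 | h1
      · rw [h.zero k h1]; ring
      · omega
  sym := by
    have key : ∀ i j, i + j = n + 1 → LL n f (i) = LL n f j := by
      intro i j hij
      rcases i with _ | i
      · rcases j with _ | j
        · rfl
        · have hj : j = n := by omega
          subst hj
          show f 0 = (j + 2 : ℤ) * f (j + 1) + ((j + 1 - j : ℕ) : ℤ) * f j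
          rw [h.zero (j + 1) (by omega), h.sym j 0 (by omega)]
          have : j + 1 - j = 1 := by omega
          rw [this]; push_cast; ring
      · rcases j with _ | j
        · have hj : i = n := by omega
          subst hj
          show (i + 2 : ℤ) * f (i + 1) + ((i + 1 - i : ℕ) : ℤ) * f i = f 0
          rw [h.zero (i + 1) (by omega), h.sym i 0 (by omega)]
          have : i + 1 - i = 1 := by omega
          rw [this]; push_cast; ring
        · show (i + 2 : ℤ) * f (i + 1) + ((n + 1 - i : ℕ) : ℤ) * f i =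
            (j + 2 : ℤ) * f (j + 1) + ((n + 1 - j : ℕ) : ℤ) * f j
          rw [h.sym (i + 1) j (by omega), h.sym i (j + 1) (by omega)]
          have h1 : n + 1 - i = j + 2 := by omega
          have h2 : n + 1 - j = i + 2 := by omega
          rw [h1, h2]; push_cast; ring
    exact key

lemma sh_sy {n : ℕ} {f : ℕ → ℤ} (h : Sy n f) : Sy (n + 1) (sh 1 f) where
  pos := by
    intro k hk
    rcases k with _ | k
    · exact h.pos 0 (Nat.zero_le _)
    · have h1 : 0 < f k := h.pos k (by omega)
      have h2 := h.nn (k + 1)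
      show 0 < f (k + 1) + 1 * f k
      linarith
  zero := by
    intro k hk
    rcases k with _ | k
    · omega
    · show f (k + 1) + 1 * f k = 0
      rw [h.zero (k + 1) (by omega), h.zero k (by omega)]; ring
  sym := by
    intro i j hij
    rcases i with _ | i
    · rcases j with _ | j
      · rfl
      · have hj : j = n := by omega
        subst hj
        show f 0 = f (j + 1) + 1 * f j
        rw [h.zero (j + 1) (by omega), h.sym j 0 (by omega)]; ring
    · rcases j with _ | j
      · have hj : i = n := by omega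
        subst hj
        show f (i + 1) + 1 * f i = f 0
        rw [h.zero (i + 1) (by omega), h.sym i 0 (by omega)]; ring
      · show f (i + 1) + 1 * f i = f (j + 1) + 1 * f j
        rw [h.sym (i + 1) j (by omega), h.sym i (j + 1) (by omega)]; ring

lemma ee_sy (n : ℕ) : Sy n (ee n) := by
  induction n with
  | zero =>
    refine ⟨fun k hk => ?_, fun k hk => ?_, fun i j h => ?_⟩
    · have : k = 0 := by omega
      subst this; simp [ee]
    · have : k ≠ 0 := by omega
      simp [ee, this]
    · have h1 : i = 0 := by omega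
      have h2 : j = 0 := by omega
      rw [h1, h2]
  | succ n ih => exact LL_sy ih

lemma dd_sy (n : ℕ) : Sy n (dd 1 n) := by
  induction n using Nat.twoStepInduction with
  | zero =>
    refine ⟨fun k hk => ?_, fun k hk => ?_, fun i j h => ?_⟩
    · have : k = 0 := by omega
      subst this; simp [dd]
    · have : k ≠ 0 := by omega
      simp [dd, this]
    · have h1 : i = 0 := by omega
      have h2 : j = 0 := by omega
      rw [h1, h2]
  | one =>
    refine ⟨fun k hk => ?_, fun k hk => ?_, fun i j h => ?_⟩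
    · interval_cases k <;> simp [dd]
    · have h1 : k ≠ 0 := by omega
      have h2 : k ≠ 1 := by omega
      simp [dd, h1, h2]
    · have h1 : (i = 0 ∧ j = 1) ∨ (i = 1 ∧ j = 0) := by omega
      rcases h1 with ⟨rfl, rfl⟩ | ⟨rfl, rfl⟩ <;> simp [dd]
  | more n ih _ => exact sh_sy (LL_sy ih)

lemma ee_zero (n : ℕ) : ee n 0 = 1 := by
  induction n with
  | zero => rfl
  | succ n ih => exact ih

lemma dd_zero (c : ℤ) (n : ℕ) : dd c n 0 = 1 := by
  induction n using Nat.twoStepInduction with
  | zero => rfl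
  | one => rfl
  | more n ih _ => exact ih

/-- the majorant -/
lemma abs_dd (n : ℕ) : ∀ k, |dd (-1) n k| ≤ dd 1 n k := by
  induction n using Nat.twoStepInduction with
  | zero => intro k; simp only [dd]; split_ifs <;> simp
  | one => intro k; simp only [dd]; split_ifs <;> simp
  | more n ih _ =>
    have h1 : ∀ k, |LL n (dd (-1) n) k| ≤ LL n (dd 1 n) k := by
      intro k
      rcases k with _ | k
      · exact ih 0
      · show |(k + 2 : ℤ) * dd (-1) n (k + 1) + ((n + 1 - k : ℕ) : ℤ) * dd (-1) n k| ≤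
          (k + 2 : ℤ) * dd 1 n (k + 1) + ((n + 1 - k : ℕ) : ℤ) * dd 1 n k
        refine (abs_add_le _ _).trans ?_
        rw [abs_mul, abs_mul, abs_of_nonneg (by positivity : (0 : ℤ) ≤ (k + 2 : ℤ)),
          abs_of_nonneg (by positivity : (0 : ℤ) ≤ ((n + 1 - k : ℕ) : ℤ))]
        exact add_le_add (mul_le_mul_of_nonneg_left (ih _) (by positivity))
          (mul_le_mul_of_nonneg_left (ih _) (by positivity))
    intro k
    rcases k with _ | k
    · exact h1 0
    · show |LL n (dd (-1) n) (k + 1) + (-1) * LL n (dd (-1) n) k| ≤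
        LL n (dd 1 n) (k + 1) + 1 * LL n (dd 1 n) k
      refine (abs_add_le _ _).trans ?_
      rw [abs_mul, abs_neg, abs_one]
      exact add_le_add (h1 _) (by linarith [h1 k])

/-- binomial coefficients are smaller -/
lemma choose_le (n : ℕ) : ∀ k, (Nat.choose n k : ℤ) ≤ dd 1 n k := by
  induction n using Nat.twoStepInduction with
  | zero =>
    intro k
    rcases k with _ | k
    · simp [dd]
    · simp [dd]
  | one =>
    intro k
    rcases k with _ | _ | k
    · simp [dd]
    · simp [dd]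
    · simp [dd, Nat.choose_eq_zero_of_lt]
  | more n ih _ =>
    have hS := dd_sy n
    have h1 : ∀ k, (Nat.choose (n + 1) k : ℤ) ≤ LL n (dd 1 n) k := by
      intro k
      rcases k with _ | k
      · have h2 := ih 0
        rw [Nat.choose_zero_right] at h2 ⊢
        exact h2
      · show _ ≤ (k + 2 : ℤ) * dd 1 n (k + 1) + ((n + 1 - k : ℕ) : ℤ) * dd 1 n k
        rw [Nat.choose_succ_succ]
        push_cast
        have h2 := ih k
        have h3 := ih (k + 1)
        have h4 := hS.nn k
        have h5 := hS.nn (k + 1)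
        rcases Nat.lt_or_ge n k with h6 | h6
        · rw [Nat.choose_eq_zero_of_lt h6, Nat.choose_eq_zero_of_lt (by omega : n < k + 1)]
          push_cast
          positivity
        · have h7 : (1 : ℤ) ≤ ((n + 1 - k : ℕ) : ℤ) := by
            have : 1 ≤ n + 1 - k := by omega
            exact_mod_cast this
          have h8 : (0 : ℤ) ≤ k := by positivity
          nlinarith
    intro k
    rcases k with _ | k
    · have h2 := h1 0
      rw [Nat.choose_zero_right] at h2 ⊢
      exact h2
    · show _ ≤ LL n (dd 1 n) (k + 1) + 1 * LL n (dd 1 n) k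
      have e : Nat.choose (n + 2) (k + 1) = Nat.choose (n + 1) k + Nat.choose (n + 1) (k + 1) :=
        Nat.choose_succ_succ _ _
      rw [e]
      push_cast
      linarith [h1 k, h1 (k + 1)]

/-! ### Log-concavity -/

/-- log-concave -/
def LC (f : ℕ → ℤ) : Prop := ∀ k, f k * f (k + 2) ≤ f (k + 1) ^ 2

lemma sh_lc {n : ℕ} {f : ℕ → ℤ} (h : Sy n f) (hl : LC f) : LC (sh 1 f) := by
  intro k
  rcases k with _ | k
  · show f 0 * (f 2 + 1 * f 1) ≤ (f 1 + 1 * f 0) ^ 2
    have h1 := hl 0
    have h2 := h.nn 0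
    have h3 := h.nn 1
    nlinarith [mul_nonneg h2 h3, sq_nonneg (f 0)]
  · show (f (k + 1) + 1 * f k) * (f (k + 3) + 1 * f (k + 2)) ≤ (f (k + 2) + 1 * f (k + 1)) ^ 2
    have h1 : f k * f (k + 2) ≤ f (k + 1) ^ 2 := hl k
    have h2 : f (k + 1) * f (k + 3) ≤ f (k + 2) ^ 2 := hl (k + 1)
    have p0 := h.nn k
    have p1 := h.nn (k + 1)
    have p2 := h.nn (k + 2)
    have p3 := h.nn (k + 3)
    have h3 : f k * f (k + 3) ≤ f (k + 1) * f (k + 2) := by
      rcases Nat.lt_or_ge n (k + 2) with h4 | h4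
      · rw [h.zero (k + 3) (by omega), h.zero (k + 2) h4]; simp
      · have q1 : 0 < f (k + 1) := h.pos _ (by omega)
        have q2 : 0 < f (k + 2) := h.pos _ h4
        by_contra hlt
        push Not at hlt
        have h5 : (f k * f (k + 2)) * (f (k + 1) * f (k + 3)) ≤ f (k + 1) ^ 2 * f (k + 2) ^ 2 :=
          mul_le_mul h1 h2 (mul_nonneg p1 p3) (sq_nonneg _)
        have h6 : (f (k + 1) * f (k + 2)) * (f (k + 1) * f (k + 2)) <
            (f (k + 1) * f (k + 2)) * (f k * f (k + 3)) :=
          mul_lt_mul_of_pos_left hlt (mul_pos q1 q2)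
        nlinarith
    nlinarith

lemma mul_lc {f w : ℕ → ℤ} (hl : LC f) (hw : LC w) (hf0 : ∀ k, 0 ≤ f k) (hw0 : ∀ k, 0 ≤ w k) :
    LC (fun k => w k * f k) := by
  intro k
  show (w k * f k) * (w (k + 2) * f (k + 2)) ≤ (w (k + 1) * f (k + 1)) ^ 2
  calc (w k * f k) * (w (k + 2) * f (k + 2)) = (w k * w (k + 2)) * (f k * f (k + 2)) := by ring
    _ ≤ w (k + 1) ^ 2 * f (k + 1) ^ 2 :=
        mul_le_mul (hw k) (hl k) (mul_nonneg (hf0 _) (hf0 _)) (sq_nonneg _)
    _ = _ := by ring

/-- the weights -/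
def ww (n k : ℕ) : ℤ := (k + 1) * ((n + 1 - k : ℕ) : ℤ)

lemma ww_lc (n : ℕ) : LC (ww n) := by
  intro k
  unfold ww
  rcases Nat.lt_or_ge n (k + 2) with h | h
  · have h1 : n + 1 - (k + 2) = 0 := by omega
    rw [h1]
    push_cast
    nlinarith [sq_nonneg (((k : ℤ) + 1 + 1) * ((n + 1 - (k + 1) : ℕ) : ℤ))]
  · obtain ⟨m, rfl⟩ : ∃ m, n = m + k + 2 := ⟨n - k - 2, by omega⟩
    have h1 : m + k + 2 + 1 - k = m + 3 := by omega
    have h2 : m + k + 2 + 1 - (k + 1) = m + 2 := by omega
    have h3 : m + k + 2 + 1 - (k + 2) = m + 1 := by omega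
    rw [h1, h2, h3]
    push_cast
    nlinarith [mul_nonneg (Int.natCast_nonneg k) (Int.natCast_nonneg m), sq_nonneg (k : ℤ),
      sq_nonneg (m : ℤ), Int.natCast_nonneg k, Int.natCast_nonneg m]

/-- normalised Eulerian numbers -/
def xx : ℕ → ℕ → ℤ
  | 0 => fun k => if k = 0 then 1 else 0
  | n + 1 => sh 1 (fun k => ww n k * xx n k)

lemma xx_sy (n : ℕ) : Sy n (xx n) := by
  induction n with
  | zero =>
    refine ⟨fun k hk => ?_, fun k hk => ?_, fun i j h => ?_⟩
    · have : k = 0 := by omega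
      subst this; simp [xx]
    · have : k ≠ 0 := by omega
      simp [xx, this]
    · have h1 : i = 0 := by omega
      have h2 : j = 0 := by omega
      rw [h1, h2]
  | succ n ih =>
    refine sh_sy (f := fun k => ww n k * xx n k) ⟨fun k hk => ?_, fun k hk => ?_, fun i j h => ?_⟩
    · have h1 : 0 < xx n k := ih.pos k hk
      have h2 : (0 : ℤ) < ((n + 1 - k : ℕ) : ℤ) := by
        have : 0 < n + 1 - k := by omega
        exact_mod_cast this
      unfold ww
      positivity
    · show ww n k * xx n k = 0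
      rw [ih.zero k hk, mul_zero]
    · show ww n i * xx n i = ww n j * xx n j
      rw [ih.sym i j h]
      unfold ww
      have h1 : n + 1 - i = j + 1 := by omega
      have h2 : n + 1 - j = i + 1 := by omega
      rw [h1, h2]; push_cast; ring

lemma xx_lc (n : ℕ) : LC (xx n) := by
  induction n with
  | zero =>
    intro k
    show xx 0 k * xx 0 (k + 2) ≤ _
    have : xx 0 (k + 2) = 0 := by simp [xx]
    rw [this, mul_zero]
    positivity
  | succ n ih =>
    have hsy : Sy n (fun k => ww n k * xx n k) := by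
      have hx := xx_sy n
      refine ⟨fun k hk => ?_, fun k hk => ?_, fun i j h => ?_⟩
      · have h1 : 0 < xx n k := hx.pos k hk
        have h2 : (0 : ℤ) < ((n + 1 - k : ℕ) : ℤ) := by
          have : 0 < n + 1 - k := by omega
          exact_mod_cast this
        unfold ww
        positivity
      · show ww n k * xx n k = 0
        rw [hx.zero k hk, mul_zero]
      · show ww n i * xx n i = ww n j * xx n j
        rw [hx.sym i j h]
        unfold ww
        have h1 : n + 1 - i = j + 1 := by omega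
        have h2 : n + 1 - j = i + 1 := by omega
        rw [h1, h2]; push_cast; ring
    exact sh_lc hsy (mul_lc ih (ww_lc n) (xx_sy n).nn fun k => by unfold ww; positivity)

lemma xx_eq (n : ℕ) : ∀ k, k ≤ n → xx n k = ee n k * (k.factorial : ℤ) * ((n - k).factorial : ℤ) := by
  induction n with
  | zero =>
    intro k hk
    have : k = 0 := by omega
    subst this; simp [xx, ee]
  | succ n ih =>
    intro k hk
    rcases k with _ | k
    · show ww n 0 * xx n 0 = ee n 0 * _ * _
      rw [ih 0 (Nat.zero_le _), ee_zero]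
      unfold ww
      rw [Nat.sub_zero, Nat.sub_zero, Nat.factorial_succ]
      push_cast; ring
    · show ww n (k + 1) * xx n (k + 1) + 1 * (ww n k * xx n k) =
        ((k + 2 : ℤ) * ee n (k + 1) + ((n + 1 - k : ℕ) : ℤ) * ee n k) * _ * _
      rw [ih k (by omega)]
      have e1 : n + 1 - (k + 1) = n - k := by omega
      rw [e1]
      rcases Nat.lt_or_ge k n with h | h
      · rw [ih (k + 1) h]
        obtain ⟨m, rfl⟩ : ∃ m, n = m + k + 1 := ⟨n - k - 1, by omega⟩
        unfold ww
        have h1 : m + k + 1 + 1 - (k + 1) = m + 1 := by omega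
        have h2 : m + k + 1 + 1 - k = m + 2 := by omega
        have h3 : m + k + 1 - (k + 1) = m := by omega
        have h4 : m + k + 1 - k = m + 1 := by omega
        rw [h1, h2, h3, h4, Nat.factorial_succ k, Nat.factorial_succ m]
        push_cast; ring
      · have hkn : k = n := by omega
        subst hkn
        rw [(xx_sy k).zero (k + 1) (by omega), (ee_sy k).zero (k + 1) (by omega)]
        unfold ww
        have h1 : k + 1 - k = 1 := by omega
        rw [h1, Nat.sub_self, Nat.factorial_succ k]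
        push_cast; ring

/-- ultra-log-concavity -/
lemma ulc (i j : ℕ) : (i + 2 : ℤ) * (j + 2) * (ee (i + j + 2) i * ee (i + j + 2) (i + 2)) ≤
    (i + 1) * (j + 1) * ee (i + j + 2) (i + 1) ^ 2 := by
  have h := xx_lc (i + j + 2) i
  rw [xx_eq _ i (by omega), xx_eq _ (i + 1) (by omega), xx_eq _ (i + 2) (by omega)] at h
  have h1 : i + j + 2 - i = j + 2 := by omega
  have h2 : i + j + 2 - (i + 1) = j + 1 := by omega
  have h3 : i + j + 2 - (i + 2) = j := by omega
  rw [h1, h2, h3, Nat.factorial_succ (i + 1), Nat.factorial_succ (j + 1), Nat.factorial_succ i,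
    Nat.factorial_succ j] at h
  push_cast at h
  have hi : (0 : ℤ) < (i.factorial : ℤ) := by exact_mod_cast i.factorial_pos
  have hj : (0 : ℤ) < (j.factorial : ℤ) := by exact_mod_cast j.factorial_pos
  have hpos : (0 : ℤ) < ((i : ℤ) + 1) * (j + 1) * (i.factorial : ℤ) ^ 2 * (j.factorial : ℤ) ^ 2 := by
    positivity
  refine le_of_mul_le_mul_left ?_ hpos
  calc ((i : ℤ) + 1) * (j + 1) * (i.factorial : ℤ) ^ 2 * (j.factorial : ℤ) ^ 2 *
      ((i + 2 : ℤ) * (j + 2) * (ee (i + j + 2) i * ee (i + j + 2) (i + 2)))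
      = ee (i + j + 2) i * (i.factorial : ℤ) * (((j : ℤ) + 1 + 1) * (((j : ℤ) + 1) * (j.factorial : ℤ))) *
        (ee (i + j + 2) (i + 2) * (((i : ℤ) + 1 + 1) * (((i : ℤ) + 1) * (i.factorial : ℤ))) *
          (j.factorial : ℤ)) := by ring
    _ ≤ _ := h
    _ = _ := by ring

/-- the middle terms -/
lemma ulc' (n K : ℕ) (h1 : 1 ≤ K) (h2 : K + 1 ≤ n) : (n + 2 : ℤ) ^ 2 * (ee n (K - 1) * ee n (K + 1)) ≤
    (n : ℤ) ^ 2 * ee n K ^ 2 := by
  obtain ⟨i, rfl⟩ : ∃ i, K = i + 1 := ⟨K - 1, by omega⟩
  obtain ⟨j, rfl⟩ : ∃ j, n = i + j + 2 := ⟨n - i - 2, by omega⟩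
  have h := ulc i j
  rw [Nat.add_sub_cancel]
  have p0 := (ee_sy (i + j + 2)).nn i
  have p2 := (ee_sy (i + j + 2)).nn (i + 2)
  have p := mul_nonneg p0 p2
  push_cast
  set A := ee (i + j + 2) i * ee (i + j + 2) (i + 1 + 1) with hA
  set B := ee (i + j + 2) (i + 1) ^ 2 with hB
  have hB0 : 0 ≤ B := sq_nonneg _
  have hA0 : 0 ≤ A := p
  have h' : ((i : ℤ) + 2) * (j + 2) * A ≤ (i + 1) * (j + 1) * B := h
  have hi : (0 : ℤ) ≤ i := Int.natCast_nonneg i
  have hj : (0 : ℤ) ≤ j := Int.natCast_nonneg j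
  have hpos : (0 : ℤ) < (i + 2) * (j + 2) := by positivity
  refine le_of_mul_le_mul_left ?_ hpos
  have key : ((i : ℤ) + 1) * (j + 1) * (i + j + 2 + 2) ^ 2 ≤ (i + 2) * (j + 2) * (i + j + 2) ^ 2 := by
    have : (i + 2 : ℤ) * (j + 2) * (i + j + 2) ^ 2 - ((i : ℤ) + 1) * (j + 1) * (i + j + 2 + 2) ^ 2 =
        (i + j + 3) * (i - j) ^ 2 := by ring
    have h3 : (0 : ℤ) ≤ (i + j + 3) * (i - j) ^ 2 := by positivity
    linarith
  calc ((i : ℤ) + 2) * (j + 2) * ((i + j + 2 + 2) ^ 2 * A)
      = (i + j + 2 + 2) ^ 2 * (((i : ℤ) + 2) * (j + 2) * A) := by ring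
    _ ≤ (i + j + 2 + 2) ^ 2 * ((i + 1) * (j + 1) * B) :=
        mul_le_mul_of_nonneg_left h' (sq_nonneg _)
    _ = ((i : ℤ) + 1) * (j + 1) * (i + j + 2 + 2) ^ 2 * B := by ring
    _ ≤ (i + 2) * (j + 2) * (i + j + 2) ^ 2 * B := mul_le_mul_of_nonneg_right key hB0
    _ = _ := by ring

end Pool.Agent.X17.Eul
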