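import Pool.Agent.X17.Eul.Arith
import Pool.Agent.H24R3.EulRec

/-!
# Descents: the signed count
-/

set_option autoImplicit false

namespace Pool.Agent.X17.Eul

open Finset Equiv Pool.Agent.H24R3.Eul

/-- the signed number of the permutations of `n + 1` letters with `k` descents -/
def SD (n k : ℕ) : ℤ := ∑ τ : Perm (Fin (n + 1)), if des τ = k then ((Perm.sign τ : ℤˣ) : ℤ) else 0

/-! ### The sign of an insertion -/

lemma Ph_succ {n : ℕ} (p : Fin (n + 1)) (τ : Perm (Fin (n + 1))) :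
    Ph (p.succ, τ) = Ph (p.castSucc, τ) * Equiv.swap p.castSucc p.succ := by
  ext x
  rw [Perm.mul_apply]
  congr 1
  by_cases h1 : x = p.succ
  · rw [h1, Equiv.swap_apply_right, Ph_self, Ph_self]
  · by_cases h2 : x = p.castSucc
    · rw [h2, Equiv.swap_apply_left]
      have e1 : p.castSucc = p.succ.succAbove p := by
        rw [Fin.succAbove_of_castSucc_lt _ _ (Fin.castSucc_lt_succ)]
      have e2 : p.succ = p.castSucc.succAbove p := by
        rw [Fin.succAbove_of_le_castSucc _ _ le_rfl]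
      conv_lhs => rw [e1]
      conv_rhs => rw [e2]
      rw [Ph_succAbove, Ph_succAbove]
    · rw [Equiv.swap_apply_of_ne_of_ne h2 h1]
      obtain ⟨i, hi⟩ := Fin.exists_succAbove_eq h1
      obtain ⟨j, hj⟩ := Fin.exists_succAbove_eq h2
      have hij : i = j := by
        have e : (p.succ.succAbove i : ℕ) = (p.castSucc.succAbove j : ℕ) := by rw [hi, hj]
        have hne1 : (x : ℕ) ≠ p + 1 := by
          intro h; apply h1; ext; simpa using h
        have hne2 : (x : ℕ) ≠ p := by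
          intro h; apply h2; ext; simpa using h
        have e3 : (p.succ.succAbove i : ℕ) = x := by rw [hi]
        rw [Fin.ext_iff]
        unfold Fin.succAbove at e e3
        split_ifs at e e3 with c1 c2 c3 <;>
          simp only [Fin.lt_def, Fin.val_castSucc, Fin.val_succ] at * <;> omega
      rw [← hi]
      conv_rhs => rw [hi, ← hj]
      rw [Ph_succAbove, Ph_succAbove, hij]

lemma sign_Ph_last {n : ℕ} (τ : Perm (Fin (n + 1))) :
    Perm.sign (Ph (Fin.last (n + 1), τ)) = Perm.sign τ := by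
  have e : Ph (Fin.last (n + 1), τ) =
      (finSuccEquiv' (Fin.last (n + 1))).symm.permCongr (Equiv.optionCongr τ) := rfl
  rw [e, Perm.sign_permCongr, Equiv.optionCongr_sign]

lemma sign_Ph_alt {n : ℕ} (p : Fin (n + 1)) (τ : Perm (Fin (n + 1))) :
    Perm.sign (Ph (p.succ, τ)) = - Perm.sign (Ph (p.castSucc, τ)) := by
  rw [Ph_succ, Perm.sign_mul, Perm.sign_swap (Fin.castSucc_lt_succ).ne, mul_neg, mul_one]

lemma sign_Ph {n : ℕ} (p : Fin (n + 2)) (τ : Perm (Fin (n + 1))) :
    Perm.sign (Ph (p, τ)) = (-1) ^ (n + 1 - (p : ℕ)) * Perm.sign τ := by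
  induction p using Fin.reverseInduction with
  | last => rw [sign_Ph_last]; simp
  | cast p ih =>
    rw [sign_Ph_alt] at ih
    rw [neg_eq_iff_eq_neg.1 ih]
    have h1 : n + 1 - (p.castSucc : ℕ) = (n + 1 - (p.succ : ℕ)) + 1 := by
      have := p.2
      simp only [Fin.val_castSucc, Fin.val_succ]
      omega
    rw [h1, pow_succ]
    simp

/-! ### The two largest letters -/

/-- the largest letters are adjacent -/
def Adj {n : ℕ} (π : Perm (Fin (n + 3))) : Prop :=
  (π.symm (Fin.last (n + 2)) : ℕ) + 1 = π.symm (Fin.last (n + 1)).castSucc ∨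
    (π.symm (Fin.last (n + 1)).castSucc : ℕ) + 1 = π.symm (Fin.last (n + 2))

instance {n : ℕ} (π : Perm (Fin (n + 3))) : Decidable (Adj π) := by
  unfold Adj; infer_instance

/-- exchange of the two largest letters -/
def sw (n : ℕ) : Perm (Fin (n + 3)) := Equiv.swap (Fin.last (n + 1)).castSucc (Fin.last (n + 2))

lemma last_ne (n : ℕ) : (Fin.last (n + 1)).castSucc ≠ Fin.last (n + 2) := by
  intro h
  have := congrArg Fin.val h
  simp at this

lemma sw_sq (n : ℕ) : sw n * sw n = 1 := Equiv.swap_mul_self _ _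

lemma adj_sw {n : ℕ} (π : Perm (Fin (n + 3))) : Adj (sw n * π) ↔ Adj π := by
  have h1 : (sw n * π).symm (Fin.last (n + 2)) = π.symm (Fin.last (n + 1)).castSucc := by
    rw [Equiv.symm_apply_eq, Perm.mul_apply, Equiv.apply_symm_apply]
    exact (Equiv.swap_apply_left _ _).symm
  have h2 : (sw n * π).symm (Fin.last (n + 1)).castSucc = π.symm (Fin.last (n + 2)) := by
    rw [Equiv.symm_apply_eq, Perm.mul_apply, Equiv.apply_symm_apply]
    exact (Equiv.swap_apply_right _ _).symm
  unfold Adj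
  rw [h1, h2]
  exact or_comm

lemma sw_lt {n : ℕ} (u v : Fin (n + 3)) (huv : ¬ (u = (Fin.last (n + 1)).castSucc ∧ v = Fin.last (n + 2)))
    (hvu : ¬ (v = (Fin.last (n + 1)).castSucc ∧ u = Fin.last (n + 2))) :
    sw n u < sw n v ↔ u < v := by
  unfold sw
  rw [Equiv.swap_apply_def, Equiv.swap_apply_def]
  have h1 := u.2
  have h2 := v.2
  split_ifs with c1 c2 c3 c4 c5 c6 c7 <;>
    simp only [Fin.ext_iff, Fin.lt_def, Fin.val_castSucc, Fin.val_last] at * <;> omega

lemma des_sw {n : ℕ} {π : Perm (Fin (n + 3))} (h : ¬ Adj π) : des (sw n * π) = des π := by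
  unfold des
  congr 1
  refine filter_congr fun i _ => ?_
  rw [Perm.mul_apply, Perm.mul_apply]
  refine sw_lt _ _ ?_ ?_
  · rintro ⟨h1, h2⟩
    apply h
    left
    rw [← h2, ← h1, Equiv.symm_apply_apply, Equiv.symm_apply_apply]
    simp
  · rintro ⟨h1, h2⟩
    apply h
    right
    rw [← h2, ← h1, Equiv.symm_apply_apply, Equiv.symm_apply_apply]
    simp

lemma sum_nonadj (n k : ℕ) : ∑ π ∈ (univ : Finset (Perm (Fin (n + 3)))).filter (fun π => ¬ Adj π),
    (if des π = k then ((Perm.sign π : ℤˣ) : ℤ) else 0) = 0 := by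
  refine Finset.sum_involution (fun π _ => sw n * π) ?_ ?_ ?_ ?_
  · intro π hπ
    rw [des_sw (mem_filter.1 hπ).2]
    split_ifs
    · have h1 : Perm.sign (sw n) = -1 := Perm.sign_swap (last_ne n)
      rw [Perm.sign_mul, h1]
      simp
    · simp
  · intro π hπ _ h
    have h1 : sw n = 1 := by
      have := congrArg (fun x => x * π⁻¹) h
      simpa [mul_assoc] using this
    have h2 : sw n (Fin.last (n + 2)) = (Fin.last (n + 1)).castSucc := Equiv.swap_apply_right _ _
    rw [h1, Perm.one_apply] at h2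
    exact last_ne n h2.symm
  · intro π hπ
    rw [mem_filter] at hπ ⊢
    exact ⟨mem_univ _, fun h => hπ.2 ((adj_sw π).1 h)⟩
  · intro π hπ
    show sw n * (sw n * π) = π
    rw [← mul_assoc, sw_sq, one_mul]

lemma symm_last {n : ℕ} (q : Fin (n + 3)) (p : Fin (n + 2)) (τ : Perm (Fin (n + 1))) :
    (Ph (q, Ph (p, τ))).symm (Fin.last (n + 2)) = q := by
  rw [Equiv.symm_apply_eq, Ph_self]

lemma symm_last' {n : ℕ} (q : Fin (n + 3)) (p : Fin (n + 2)) (τ : Perm (Fin (n + 1))) :
    (Ph (q, Ph (p, τ))).symm (Fin.last (n + 1)).castSucc = q.succAbove p := by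
  rw [Equiv.symm_apply_eq, Ph_succAbove, Ph_self]

lemma adj_iff {n : ℕ} (q : Fin (n + 3)) (p : Fin (n + 2)) (τ : Perm (Fin (n + 1))) :
    Adj (Ph (q, Ph (p, τ))) ↔ (q = p.castSucc ∨ q = p.succ) := by
  unfold Adj
  rw [symm_last, symm_last']
  have h1 := p.2
  have h2 := q.2
  unfold Fin.succAbove
  split_ifs with c <;>
    simp only [Fin.ext_iff, Fin.lt_def, Fin.val_castSucc, Fin.val_succ] at * <;> omega

lemma vf_lt {n : ℕ} (τ : Perm (Fin (n + 1))) : ∀ i ≤ n, vf τ i < n + 1 := by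
  intro i hi
  have := vf_val τ ⟨i, by omega⟩
  simp only at this
  rw [this]
  exact (τ ⟨i, by omega⟩).2

lemma vf_Ph_self {n : ℕ} (p : Fin (n + 2)) (τ : Perm (Fin (n + 1))) :
    vf (Ph (p, τ)) p = n + 1 := by
  rw [vf_val, Ph_self]; simp

/-- descending block -/
lemma des_cast {n : ℕ} (p : Fin (n + 2)) (τ : Perm (Fin (n + 1))) :
    des (Ph (p.castSucc, Ph (p, τ))) = des (Ph (p, τ)) + 1 := by
  rw [des_Ph, Fin.val_castSucc]
  have hM := vf_lt (Ph (p, τ))
  have h := ins_mid (vf (Ph (p, τ))) (n + 1 + 1) p (n + 1) (by have := p.2; omega) hM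
  rw [← des_dn] at h
  have h1 : ¬ (1 ≤ (p : ℕ) ∧ vf (Ph (p, τ)) p < vf (Ph (p, τ)) ((p : ℕ) - 1)) := by
    rintro ⟨_, h2⟩
    rw [vf_Ph_self] at h2
    have h3 := hM ((p : ℕ) - 1) (by have := p.2; omega)
    omega
  rw [if_neg h1] at h
  exact h

/-- ascending block -/
lemma des_succ {n : ℕ} (p : Fin (n + 2)) (τ : Perm (Fin (n + 1))) :
    des (Ph (p.succ, Ph (p, τ))) = des (Ph (p, τ)) := by
  rw [des_Ph, Fin.val_succ]
  have hM := vf_lt (Ph (p, τ))
  have hp := p.2
  rcases Nat.lt_or_ge (p : ℕ) (n + 1) with h0 | h0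
  · have h := ins_mid (vf (Ph (p, τ))) (n + 1 + 1) ((p : ℕ) + 1) (n + 1) (by omega) hM
    rw [← des_dn] at h
    have h1 : 1 ≤ (p : ℕ) + 1 ∧ vf (Ph (p, τ)) ((p : ℕ) + 1) <
        vf (Ph (p, τ)) ((p : ℕ) + 1 - 1) := by
      refine ⟨by omega, ?_⟩
      rw [Nat.add_sub_cancel, vf_Ph_self]
      have h3 := hM ((p : ℕ) + 1) (by omega)
      rcases Nat.lt_or_ge (vf (Ph (p, τ)) ((p : ℕ) + 1)) (n + 1) with h4 | h4
      · exact h4
      · exfalso
        have h5 : vf (Ph (p, τ)) ((p : ℕ) + 1) = n + 1 := by omega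
        have h6 := vf_val (Ph (p, τ)) ⟨(p : ℕ) + 1, by omega⟩
        simp only at h6
        rw [h5] at h6
        have h7 : Ph (p, τ) ⟨(p : ℕ) + 1, by omega⟩ = Ph (p, τ) p := by
          rw [Ph_self]; ext; rw [← h6]; simp
        have h8 := (Ph (p, τ)).injective h7
        have h9 := congrArg Fin.val h8
        simp at h9
    rw [if_pos h1] at h
    omega
  · have hpn : (p : ℕ) = n + 1 := by omega
    rw [hpn, ins_last _ _ _ hM, ← des_dn]

/-- the signed numbers of the insertions -/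
def MD (n m : ℕ) : ℤ := ∑ τ : Perm (Fin (n + 1)), ((Perm.sign τ : ℤˣ) : ℤ) *
  ((1 + (des τ : ℤ)) * (if des τ = m then 1 else 0) +
        ((n : ℤ) + 1 - des τ) * (if des τ + 1 = m then 1 else 0))

lemma MD_eq (n m : ℕ) : MD n m = ∑ τ : Perm (Fin (n + 1)), ∑ p : Fin (n + 2),
    if des (Ph (p, τ)) = m then ((Perm.sign τ : ℤˣ) : ℤ) else 0 := by
  unfold MD
  refine sum_congr rfl fun τ _ => ?_
  rw [← count_p τ m, card_filter]
  push_cast
  rw [mul_sum]
  refine sum_congr rfl fun p _ => ?_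
  split_ifs <;> simp

lemma des_le {n : ℕ} (τ : Perm (Fin (n + 1))) : des τ ≤ n := by
  unfold des
  refine (card_filter_le _ _).trans ?_
  rw [card_univ, Fintype.card_fin]

lemma SD_big {n m : ℕ} (h : n < m) : SD n m = 0 := by
  unfold SD
  refine sum_eq_zero fun τ _ => ?_
  have := des_le τ
  rw [if_neg (by omega)]

lemma MD_zero (n : ℕ) : MD n 0 = SD n 0 := by
  unfold MD SD
  refine sum_congr rfl fun τ _ => ?_
  by_cases h : des τ = 0
  · rw [if_pos h, if_neg (by omega), h]; simp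
  · rw [if_neg h, if_neg (by omega)]; simp [h]

lemma MD_succ (n m : ℕ) : MD n (m + 1) = (m + 2 : ℤ) * SD n (m + 1) +
    ((n + 1 - m : ℕ) : ℤ) * SD n m := by
  rcases Nat.lt_or_ge n m with h | h
  · rw [SD_big h, SD_big (by omega : n < m + 1)]
    unfold MD
    rw [mul_zero, mul_zero, add_zero]
    refine sum_eq_zero fun τ _ => ?_
    have := des_le τ
    rw [if_neg (by omega), if_neg (by omega)]; simp
  · unfold MD SD
    rw [mul_sum, mul_sum, ← sum_add_distrib]
    refine sum_congr rfl fun τ _ => ?_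
    have e : ((n + 1 - m : ℕ) : ℤ) = n + 1 - m := by
      rw [Nat.cast_sub (by omega)]; push_cast; ring
    rw [e]
    by_cases h1 : des τ = m + 1
    · rw [h1]; simp; ring
    · by_cases h2 : des τ = m
      · rw [h2]; simp; ring
      · rw [if_neg h1, if_neg (by omega), if_neg h2]; simp [h1]

lemma SD_key (n k : ℕ) : SD (n + 2) k = MD n k - ∑ τ : Perm (Fin (n + 1)), ∑ p : Fin (n + 2),
    if des (Ph (p, τ)) + 1 = k then ((Perm.sign τ : ℤˣ) : ℤ) else 0 := by
  have h1 : SD (n + 2) k = ∑ π : Perm (Fin (n + 3)),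
      if Adj π then (if des π = k then ((Perm.sign π : ℤˣ) : ℤ) else 0) else 0 := by
    unfold SD
    rw [← sum_filter_add_sum_filter_not univ Adj, sum_nonadj, add_zero, sum_filter]
  rw [h1, ← Function.Bijective.sum_comp Ph_bij, Fintype.sum_prod_type_right,
    ← Function.Bijective.sum_comp Ph_bij, Fintype.sum_prod_type_right, MD_eq, ← sum_sub_distrib]
  refine sum_congr rfl fun τ _ => ?_
  rw [← sum_sub_distrib]
  refine sum_congr rfl fun p _ => ?_
  have hne : p.castSucc ≠ p.succ := (Fin.castSucc_lt_succ).ne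
  rw [Fintype.sum_eq_add p.succ p.castSucc hne.symm]
  · rw [if_pos ((adj_iff _ _ _).2 (Or.inr rfl)), if_pos ((adj_iff _ _ _).2 (Or.inl rfl)), des_succ,
      des_cast, sign_Ph p.succ, sign_Ph p.castSucc, sign_Ph p]
    have hp := p.2
    obtain ⟨d, hd⟩ : ∃ d, n + 1 = d + p := ⟨n + 1 - p, by omega⟩
    have e1 : n + 1 + 1 - (p.succ : ℕ) = d := by rw [Fin.val_succ]; omega
    have e2 : n + 1 + 1 - (p.castSucc : ℕ) = d + 1 := by rw [Fin.val_castSucc]; omega
    have e3 : n + 1 - (p : ℕ) = d := by omega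
    rw [e1, e2, e3]
    have e4 : ((-1 : ℤˣ) ^ d * ((-1) ^ d * Perm.sign τ)) = Perm.sign τ := by
      rw [← mul_assoc, ← mul_pow]; simp
    have e5 : ((-1 : ℤˣ) ^ (d + 1) * ((-1) ^ d * Perm.sign τ)) = - Perm.sign τ := by
      rw [pow_succ, mul_assoc, mul_comm (-1 : ℤˣ), ← mul_assoc, ← mul_assoc, ← mul_pow]; simp
    rw [e4, e5]
    split_ifs <;> simp
  · intro q hq
    rw [if_neg]
    rw [adj_iff]
    rintro (h | h)
    · exact hq.2 h
    · exact hq.1 h

lemma SD_rec0 (n : ℕ) : SD (n + 2) 0 = SD n 0 := by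
  rw [SD_key, MD_zero]
  have : ∑ τ : Perm (Fin (n + 1)), ∑ p : Fin (n + 2),
      (if des (Ph (p, τ)) + 1 = 0 then ((Perm.sign τ : ℤˣ) : ℤ) else 0) = 0 :=
    sum_eq_zero fun τ _ => sum_eq_zero fun p _ => if_neg (by omega)
  rw [this, sub_zero]

lemma SD_rec (n k : ℕ) : SD (n + 2) (k + 1) = MD n (k + 1) - MD n k := by
  rw [SD_key, MD_eq n k]
  congr 1
  refine sum_congr rfl fun τ _ => sum_congr rfl fun p _ => ?_
  congr 1
  simp

lemma MD_LL {n : ℕ} (h : SD n = dd (-1) n) : MD n = LL n (dd (-1) n) := by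
  funext k
  rcases k with _ | k
  · rw [MD_zero, h]; rfl
  · rw [MD_succ, h]; rfl

/-- **the signed count** -/
theorem SD_dd (n : ℕ) : SD n = dd (-1) n := by
  induction n using Nat.twoStepInduction with
  | zero =>
    funext k
    unfold SD dd
    rw [Fintype.sum_eq_single (1 : Perm (Fin 1)) (fun x hx => absurd (Subsingleton.elim x 1) hx)]
    have h1 : des (1 : Perm (Fin 1)) = 0 := by
      have := des_le (1 : Perm (Fin 1)); omega
    rw [h1]
    rcases k with _ | k <;> simp
  | one =>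
    funext k
    rcases k with _ | _ | k
    · decide +kernel
    · decide +kernel
    · rw [SD_big (by omega)]
      simp [dd]
  | more n ih _ =>
    funext k
    rcases k with _ | k
    · rw [SD_rec0, ih]; rfl
    · rw [SD_rec, MD_LL ih]
      show _ = LL n (dd (-1) n) (k + 1) + (-1) * LL n (dd (-1) n) k
      ring

/-- the number of permutations with `k` descents -/
theorem E_ee (n : ℕ) : ∀ k, E n k = ee n k := by
  induction n with
  | zero =>
    intro k
    rcases k with _ | k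
    · rw [E_zero_zero]; rfl
    · rw [E_big 0 _ (by omega)]; simp [ee]
  | succ n ih =>
    intro k
    rcases k with _ | k
    · rw [E_succ_zero, ih]; rfl
    · rcases Nat.lt_or_ge n k with h | h
      · rw [E_big _ _ (by omega), (ee_sy (n + 1)).zero _ (by omega)]
      · rw [E_rec n k h, ih, ih]
        show _ = (k + 2 : ℤ) * ee n (k + 1) + ((n + 1 - k : ℕ) : ℤ) * ee n k
        have e : ((n + 1 - k : ℕ) : ℤ) = n + 1 - k := by
          rw [Nat.cast_sub (by omega)]; push_cast; ring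
        rw [e]

end Pool.Agent.X17.Eul
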