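import Pool.Agent.X17.Eul.Arith

/-!
# Excedances
-/

set_option autoImplicit false

namespace Pool.Agent.X17.Eul

open Finset Equiv

/-- the number of excedances -/
def exc {n : ℕ} (σ : Perm (Fin n)) : ℕ := ((univ : Finset (Fin n)).filter (fun i => i < σ i)).card

/-- weight `1` or the sign -/
def wt {n : ℕ} (u : ℤ) (σ : Perm (Fin n)) : ℤ := if Perm.sign σ = 1 then 1 else u

lemma exc_zero {n : ℕ} (e : Perm (Fin n)) : exc (Perm.decomposeFin.symm (0, e)) = exc e := by
  unfold exc
  rw [card_filter, card_filter, Fin.sum_univ_succ]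
  have h0 : ¬ ((0 : Fin (n + 1)) < Perm.decomposeFin.symm (0, e) 0) := by
    rw [Perm.decomposeFin_symm_apply_zero]; exact lt_irrefl _
  rw [if_neg h0, zero_add]
  refine sum_congr rfl fun i _ => ?_
  rw [Perm.decomposeFin_symm_apply_succ]
  simp

lemma exc_succ {n : ℕ} (q : Fin n) (e : Perm (Fin n)) :
    exc (Perm.decomposeFin.symm (q.succ, e)) + (if e.symm q < q then 1 else 0) = exc e + 1 := by
  unfold exc
  rw [card_filter, card_filter, Fin.sum_univ_succ]
  have h0 : (0 : Fin (n + 1)) < Perm.decomposeFin.symm (q.succ, e) 0 := by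
    rw [Perm.decomposeFin_symm_apply_zero]; exact Fin.succ_pos q
  rw [if_pos h0]
  have h1 : ∀ i : Fin n, (if i.succ < Perm.decomposeFin.symm (q.succ, e) i.succ then 1 else 0) +
      (if i = e.symm q then (if e.symm q < q then 1 else 0) else 0) =
      (if i < e i then 1 else 0) := by
    intro i
    rw [Perm.decomposeFin_symm_apply_succ]
    by_cases hi : i = e.symm q
    · have h2 : e i = q := by rw [hi, Equiv.apply_symm_apply]
      rw [if_pos hi, h2, Equiv.swap_apply_right, if_neg (Fin.not_lt_zero _), ← hi, zero_add]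
    · have h2 : e i ≠ q := fun h => hi (by rw [← h, Equiv.symm_apply_apply])
      rw [if_neg hi, Equiv.swap_apply_of_ne_of_ne (Fin.succ_ne_zero _)
        (fun h => h2 (Fin.succ_injective _ h)), add_zero]
      simp
  rw [← sum_congr rfl fun i _ => h1 i, sum_add_distrib, Finset.sum_ite_eq' univ (e.symm q),
    if_pos (mem_univ _)]
  ring

lemma exc_count {n : ℕ} (e : Perm (Fin n)) :
    ((univ : Finset (Fin n)).filter (fun q => e.symm q < q)).card = exc e := by
  unfold exc
  refine (card_bij (fun i _ => e i) ?_ ?_ ?_).symm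
  · intro i hi
    rw [mem_filter] at hi ⊢
    exact ⟨mem_univ _, by rw [Equiv.symm_apply_apply]; exact hi.2⟩
  · intro i _ j _ h
    exact e.injective h
  · intro q hq
    rw [mem_filter] at hq
    exact ⟨e.symm q, mem_filter.2 ⟨mem_univ _, by rw [Equiv.apply_symm_apply]; exact hq.2⟩,
      Equiv.apply_symm_apply _ _⟩

/-- the weighted number of the permutations with `k` excedances -/
def XC (u : ℤ) (n k : ℕ) : ℤ := ∑ σ : Perm (Fin n),
  if exc σ = k then (if Perm.sign σ = 1 then 1 else u) else 0

lemma wt_mul {n : ℕ} {u : ℤ} (hu : u * u = 1) (q : Fin n) (e : Perm (Fin n)) :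
    (if Perm.sign (Perm.decomposeFin.symm (q.succ, e)) = 1 then 1 else u) =
      u * (if Perm.sign e = 1 then 1 else u) := by
  rw [Perm.decomposeFin.symm_sign, if_neg (Fin.succ_ne_zero q)]
  rcases Int.units_eq_one_or (Perm.sign e) with h | h
  · rw [h]; simp
  · rw [h]; simp [hu]

lemma XC_rec {u : ℤ} (hu : u * u = 1) (n k : ℕ) : XC u (n + 1) k = XC u n k + u *
    ∑ e : Perm (Fin n), (if Perm.sign e = 1 then 1 else u) *
      ((exc e : ℤ) * (if exc e = k then 1 else 0) +
        ((n : ℤ) - exc e) * (if exc e + 1 = k then 1 else 0)) := by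
  unfold XC
  rw [← Equiv.sum_comp Perm.decomposeFin.symm, Fintype.sum_prod_type_right, mul_sum,
    ← sum_add_distrib]
  refine sum_congr rfl fun e _ => ?_
  rw [Fin.sum_univ_succ, exc_zero, Perm.decomposeFin.symm_sign, if_pos rfl, one_mul]
  congr 1
  have h1 : ∀ q : Fin n, (if exc (Perm.decomposeFin.symm (q.succ, e)) = k then
      (if Perm.sign (Perm.decomposeFin.symm (q.succ, e)) = 1 then 1 else u) else 0) =
      u * (if Perm.sign e = 1 then 1 else u) * ((if e.symm q < q then 1 else 0) *
        (if exc e = k then 1 else 0) + (1 - (if e.symm q < q then 1 else 0)) *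
        (if exc e + 1 = k then 1 else 0)) := by
    intro q
    rw [wt_mul hu]
    have h2 := exc_succ q e
    by_cases hq : e.symm q < q
    · rw [if_pos hq] at h2 ⊢
      have h3 : exc (Perm.decomposeFin.symm (q.succ, e)) = exc e := by omega
      rw [h3]
      split_ifs <;> simp
    · rw [if_neg hq] at h2 ⊢
      have h3 : exc (Perm.decomposeFin.symm (q.succ, e)) = exc e + 1 := by omega
      rw [h3]
      split_ifs <;> simp
  rw [sum_congr rfl fun q _ => h1 q, ← mul_sum, sum_add_distrib, ← sum_mul, ← sum_mul,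
    sum_sub_distrib]
  have h4 : (∑ q : Fin n, if e.symm q < q then (1 : ℤ) else 0) = exc e := by
    rw [← exc_count e, card_filter]; push_cast; rfl
  rw [h4]
  simp only [sum_const, card_univ, Fintype.card_fin, nsmul_eq_mul, mul_one]
  ring

lemma exc_lt {n : ℕ} (σ : Perm (Fin (n + 1))) : exc σ ≤ n := by
  unfold exc
  have h : (univ : Finset (Fin (n + 1))).filter (fun i => i < σ i) ⊆ univ.erase (Fin.last n) := by
    intro i hi
    rw [mem_filter] at hi
    rw [mem_erase]
    refine ⟨?_, mem_univ _⟩
    rintro rfl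
    exact absurd hi.2 (not_lt.2 (Fin.le_last _))
  refine (card_le_card h).trans ?_
  rw [card_erase_of_mem (mem_univ _), card_univ, Fintype.card_fin]
  rfl

lemma XC_big {u : ℤ} {n m : ℕ} (h : n < m) : XC u (n + 1) m = 0 := by
  unfold XC
  refine sum_eq_zero fun τ _ => ?_
  have := exc_lt τ
  rw [if_neg (by omega)]

lemma XC_zero' {u : ℤ} (hu : u * u = 1) (n : ℕ) : XC u (n + 1) 0 = XC u n 0 := by
  rw [XC_rec hu]
  have : ∑ e : Perm (Fin n), (if Perm.sign e = 1 then 1 else u) *
      ((exc e : ℤ) * (if exc e = 0 then 1 else 0) +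
        ((n : ℤ) - exc e) * (if exc e + 1 = 0 then 1 else 0)) = 0 := by
    refine sum_eq_zero fun e _ => ?_
    rw [if_neg (Nat.succ_ne_zero (exc e))]
    by_cases h : exc e = 0
    · rw [h]; simp
    · simp [h]
  rw [this]; ring

lemma XC_succ {u : ℤ} (hu : u * u = 1) (n k : ℕ) : XC u (n + 1) (k + 1) =
    XC u n (k + 1) + u * (((k : ℤ) + 1) * XC u n (k + 1) + ((n : ℤ) - k) * XC u n k) := by
  rw [XC_rec hu]
  congr 2
  unfold XC
  rw [mul_sum, mul_sum, ← sum_add_distrib]
  refine sum_congr rfl fun e _ => ?_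
  by_cases h1 : exc e = k + 1
  · rw [h1]; simp; ring
  · by_cases h2 : exc e = k
    · rw [h2]; simp; ring
    · simp [h1, h2]

lemma XC_one (u : ℤ) (k : ℕ) : XC u 1 k = if k = 0 then 1 else 0 := by
  unfold XC
  rw [Fintype.sum_eq_single (1 : Perm (Fin 1)) (fun x hx => absurd (Subsingleton.elim x 1) hx)]
  have h1 : exc (1 : Perm (Fin 1)) = 0 := by
    have := exc_lt (1 : Perm (Fin 1)); omega
  rw [h1]
  rcases k with _ | k <;> simp

/-- **the number of the permutations with `k` excedances** -/
theorem XC_ee (n : ℕ) : ∀ k, XC 1 (n + 1) k = ee n k := by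
  induction n with
  | zero => intro k; rw [XC_one]; rfl
  | succ n ih =>
    intro k
    rcases k with _ | k
    · rw [XC_zero' (by norm_num), ih]; rfl
    · rw [XC_succ (by norm_num), ih, ih]
      show _ = (k + 2 : ℤ) * ee n (k + 1) + ((n + 1 - k : ℕ) : ℤ) * ee n k
      rcases Nat.lt_or_ge n k with h | h
      · rw [(ee_sy n).zero k h, (ee_sy n).zero (k + 1) (by omega)]; simp
      · have e : ((n + 1 - k : ℕ) : ℤ) = n + 1 - k := by
          rw [Nat.cast_sub (by omega)]; push_cast; ring
        rw [e]; push_cast; ring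

/-- **the signed number of the permutations with `k` excedances** -/
theorem XC_choose (n : ℕ) : ∀ k, XC (-1) (n + 1) k = (-1) ^ k * (Nat.choose n k : ℤ) := by
  induction n with
  | zero =>
    intro k; rw [XC_one]
    rcases k with _ | k
    · simp
    · simp
  | succ n ih =>
    intro k
    rcases k with _ | k
    · rw [XC_zero' (by norm_num), ih]; simp
    · rw [XC_succ (by norm_num), ih, ih, Nat.choose_succ_succ]
      push_cast
      rcases Nat.lt_or_ge n k with h | h
      · rw [Nat.choose_eq_zero_of_lt h, Nat.choose_eq_zero_of_lt (by omega : n < k + 1)]; simp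
      · have h1 : ((k : ℤ) + 1) * (Nat.choose n (k + 1) : ℤ) = (n - k) * (Nat.choose n k : ℤ) := by
          have h2 := Nat.choose_succ_right_eq n k
          have h3 : ((Nat.choose n (k + 1) * (k + 1) : ℕ) : ℤ) = ((Nat.choose n k * (n - k) : ℕ) : ℤ) := by
            rw [h2]
          rw [Nat.cast_mul, Nat.cast_mul, Nat.cast_sub h] at h3
          push_cast at h3
          linarith
        rw [pow_succ]
        linear_combination ((-1 : ℤ) ^ k) * h1

end Pool.Agent.X17.Eul
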