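import Pool.Agent.X17.Eul.Ratio
import Pool.Agent.X17.Eul.Desc
import Pool.Agent.X17.Eul.Exc

/-!
# Strong synchronisation
-/

set_option autoImplicit false

namespace Pool.Agent.X17.Eul

open Finset Equiv

/-- the number of descents of a permutation in one-line notation -/
def dsc {n : ℕ} (π : Perm (Fin n)) : ℕ :=
  ((univ : Finset (Fin n)).filter
    (fun i : Fin n => ∃ h : (i : ℕ) + 1 < n, π ⟨(i : ℕ) + 1, h⟩ < π i)).card

/-- even permutations with `k` descents -/
def Ap (n k : ℕ) : ℕ :=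
  ((univ : Finset (Perm (Fin n))).filter (fun π => Perm.sign π = 1 ∧ dsc π = k)).card

/-- odd permutations with `k` descents -/
def Am (n k : ℕ) : ℕ :=
  ((univ : Finset (Perm (Fin n))).filter (fun π => Perm.sign π = -1 ∧ dsc π = k)).card

/-- even permutations with `k` excedances -/
def Pe (n k : ℕ) : ℕ :=
  ((univ : Finset (Perm (Fin n))).filter (fun π => Perm.sign π = 1 ∧ exc π = k)).card

/-- odd permutations with `k` excedances -/
def Qo (n k : ℕ) : ℕ :=
  ((univ : Finset (Perm (Fin n))).filter (fun π => Perm.sign π = -1 ∧ exc π = k)).card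

/-- strongly synchronised sequences `a 0, ..., a m` and `b 0, ..., b m` -/
def StronglySynchronised (m : ℕ) (a b : ℕ → ℕ) : Prop :=
  ∀ k, 1 ≤ k → k + 1 ≤ m →
    max (a (k - 1)) (b (k - 1)) * max (a (k + 1)) (b (k + 1)) ≤ min (a k) (b k) ^ 2

lemma dsc_eq {n : ℕ} (π : Perm (Fin (n + 1))) : dsc π = Pool.Agent.H24R3.Eul.des π := by
  unfold dsc Pool.Agent.H24R3.Eul.des
  symm
  refine card_bij (fun i _ => i.castSucc) ?_ ?_ ?_
  · intro i hi
    rw [mem_filter] at hi ⊢
    refine ⟨mem_univ _, by simp, ?_⟩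
    exact hi.2
  · intro i _ j _ h
    exact Fin.castSucc_injective _ h
  · intro j hj
    rw [mem_filter] at hj
    obtain ⟨_, h, h1⟩ := hj
    refine ⟨⟨j, by omega⟩, mem_filter.2 ⟨mem_univ _, ?_⟩, rfl⟩
    exact h1

lemma sum_two {n : ℕ} (f : Perm (Fin n) → ℕ) (k : ℕ) (u : ℤ) :
    (∑ σ : Perm (Fin n), if f σ = k then (if Perm.sign σ = 1 then (1 : ℤ) else u) else 0) =
      (((univ : Finset (Perm (Fin n))).filter (fun π => Perm.sign π = 1 ∧ f π = k)).card : ℤ) +
      u * (((univ : Finset (Perm (Fin n))).filter (fun π => Perm.sign π = -1 ∧ f π = k)).card : ℤ) := by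
  rw [card_filter, card_filter]
  push_cast
  rw [mul_sum, ← sum_add_distrib]
  refine sum_congr rfl fun σ _ => ?_
  rcases Int.units_eq_one_or (Perm.sign σ) with h | h
  · rw [h]
    by_cases h1 : f σ = k <;> simp [h1]
  · rw [h]
    by_cases h1 : f σ = k <;> simp [h1]

/-- within distance `mm` -/
def Near (n : ℕ) (a : ℕ → ℕ) : Prop := ∀ k, ee n k - mm n k ≤ 2 * (a k : ℤ) ∧
  2 * (a k : ℤ) ≤ ee n k + mm n k

lemma near_of {n : ℕ} {a b : ℕ → ℕ} (d : ℕ → ℤ) (h1 : ∀ k, (a k : ℤ) + b k = ee n k)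
    (h2 : ∀ k, (a k : ℤ) - b k = d k) (h3 : ∀ k, |d k| ≤ mm n k) : Near n a ∧ Near n b := by
  constructor
  · intro k
    have := abs_le.1 (h3 k)
    have e1 := h1 k
    have e2 := h2 k
    constructor <;> linarith
  · intro k
    have := abs_le.1 (h3 k)
    have e1 := h1 k
    have e2 := h2 k
    constructor <;> linarith

lemma near_A (n : ℕ) : Near n (Ap (n + 1)) ∧ Near n (Am (n + 1)) := by
  refine near_of (dd (-1) n) (fun k => ?_) (fun k => ?_) (fun k => le_max_left _ _)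
  · rw [← E_ee, Pool.Agent.H24R3.Eul.E_sum]
    have h := sum_two (fun π : Perm (Fin (n + 1)) => dsc π) k 1
    rw [one_mul] at h
    unfold Ap Am
    rw [← h]
    refine sum_congr rfl fun σ _ => ?_
    rw [dsc_eq, ite_self]
  · have h := sum_two (fun π : Perm (Fin (n + 1)) => dsc π) k (-1)
    rw [← SD_dd]
    unfold Ap Am SD
    have h1 : ((((univ : Finset (Perm (Fin (n + 1)))).filter
        (fun π => Perm.sign π = 1 ∧ dsc π = k)).card : ℤ)) -
        (((univ : Finset (Perm (Fin (n + 1)))).filter (fun π => Perm.sign π = -1 ∧ dsc π = k)).card : ℤ) =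
        (((univ : Finset (Perm (Fin (n + 1)))).filter (fun π => Perm.sign π = 1 ∧ dsc π = k)).card : ℤ) +
        (-1) * (((univ : Finset (Perm (Fin (n + 1)))).filter
          (fun π => Perm.sign π = -1 ∧ dsc π = k)).card : ℤ) := by ring
    rw [h1, ← h]
    refine sum_congr rfl fun σ _ => ?_
    rw [dsc_eq]
    congr 1
    rcases Int.units_eq_one_or (Perm.sign σ) with h | h <;> rw [h] <;> simp

lemma near_P (n : ℕ) : Near n (Pe (n + 1)) ∧ Near n (Qo (n + 1)) := by
  refine near_of (fun k => (-1) ^ k * (Nat.choose n k : ℤ)) (fun k => ?_) (fun k => ?_) (fun k => ?_)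
  · rw [← XC_ee]
    have h := sum_two (fun π : Perm (Fin (n + 1)) => exc π) k 1
    rw [one_mul] at h
    unfold Pe Qo
    rw [← h]
    rfl
  · show _ = (-1) ^ k * (Nat.choose n k : ℤ)
    rw [← XC_choose]
    have h := sum_two (fun π : Perm (Fin (n + 1)) => exc π) k (-1)
    unfold Pe Qo XC
    rw [h]
    ring
  · rw [abs_mul, abs_pow, abs_neg, abs_one, one_pow, one_mul, Nat.abs_cast]
    exact le_max_right _ _

lemma sync_of {n : ℕ} {a b : ℕ → ℕ} (ha : Near n a) (hb : Near n b) :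
    StronglySynchronised n a b := by
  intro k h1 h2
  obtain ⟨h3, h4⟩ := crit n k h1 h2
  have hmax : ∀ j, 2 * ((max (a j) (b j) : ℕ) : ℤ) ≤ ee n j + mm n j := by
    intro j
    rcases max_choice (a j) (b j) with h | h <;> rw [h]
    · exact (ha j).2
    · exact (hb j).2
  have hmin : ∀ j, ee n j - mm n j ≤ 2 * ((min (a j) (b j) : ℕ) : ℤ) := by
    intro j
    rcases min_choice (a j) (b j) with h | h <;> rw [h]
    · exact (ha j).1
    · exact (hb j).1
  have e1 := hmax (k - 1)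
  have e2 := hmax (k + 1)
  have e3 := hmin k
  have h5 : (4 : ℤ) * (((max (a (k - 1)) (b (k - 1)) : ℕ) : ℤ) *
      ((max (a (k + 1)) (b (k + 1)) : ℕ) : ℤ)) ≤ 4 * ((min (a k) (b k) : ℕ) : ℤ) ^ 2 := by
    calc (4 : ℤ) * (((max (a (k - 1)) (b (k - 1)) : ℕ) : ℤ) *
          ((max (a (k + 1)) (b (k + 1)) : ℕ) : ℤ))
        = (2 * ((max (a (k - 1)) (b (k - 1)) : ℕ) : ℤ)) *
          (2 * ((max (a (k + 1)) (b (k + 1)) : ℕ) : ℤ)) := by ring
      _ ≤ (ee n (k - 1) + mm n (k - 1)) * (ee n (k + 1) + mm n (k + 1)) :=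
          mul_le_mul e1 e2 (by positivity) (le_trans (by positivity) e1)
      _ ≤ (ee n k - mm n k) ^ 2 := h4
      _ ≤ (2 * ((min (a k) (b k) : ℕ) : ℤ)) ^ 2 := pow_le_pow_left₀ (by linarith) e3 2
      _ = _ := by ring
  have h6 : ((max (a (k - 1)) (b (k - 1)) * max (a (k + 1)) (b (k + 1)) : ℕ) : ℤ) ≤
      ((min (a k) (b k) ^ 2 : ℕ) : ℤ) := by
    rw [Nat.cast_mul, Nat.cast_pow]
    linarith
  exact_mod_cast h6

/-- all pairs are strongly synchronised -/
theorem main (n : ℕ) (hn : 1 ≤ n) :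
    StronglySynchronised (n - 1) (Ap n) (Am n) ∧ StronglySynchronised (n - 1) (Ap n) (Pe n) ∧
    StronglySynchronised (n - 1) (Am n) (Qo n) ∧ StronglySynchronised (n - 1) (Ap n) (Qo n) ∧
    StronglySynchronised (n - 1) (Am n) (Pe n) := by
  obtain ⟨m, rfl⟩ : ∃ m, n = m + 1 := ⟨n - 1, by omega⟩
  rw [Nat.add_sub_cancel]
  obtain ⟨h1, h2⟩ := near_A m
  obtain ⟨h3, h4⟩ := near_P m
  exact ⟨sync_of h1 h2, sync_of h1 h3, sync_of h2 h4, sync_of h1 h4, sync_of h2 h3⟩

end Pool.Agent.X17.Eul
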