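import Pool.Agent.X17.Eul.Arith

/-!
# The ratio of the signed and unsigned Eulerian numbers, and the criterion
-/

set_option autoImplicit false

namespace Pool.Agent.X17.Eul

lemma ee_succ_one (n : ℕ) : ee (n + 1) 1 = 2 * ee n 1 + (n + 1) := by
  show ((0 : ℕ) + 2 : ℤ) * ee n (0 + 1) + ((n + 1 - 0 : ℕ) : ℤ) * ee n 0 = _
  rw [ee_zero]; push_cast; ring

lemma ee_one (n : ℕ) : ee n 1 = 2 ^ (n + 1) - n - 2 := by
  induction n with
  | zero => simp [ee]
  | succ n ih => rw [ee_succ_one, ih]; push_cast; ring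

lemma ee_succ_two (n : ℕ) : ee (n + 2) 2 = 3 * ee (n + 1) 2 + (n + 1) * ee (n + 1) 1 := by
  show ((1 : ℕ) + 2 : ℤ) * ee (n + 1) (1 + 1) + ((n + 1 + 1 - 1 : ℕ) : ℤ) * ee (n + 1) 1 = _
  have : n + 1 + 1 - 1 = n + 1 := by omega
  rw [this]; push_cast; ring

lemma ee_two (n : ℕ) : 2 * ee (n + 1) 2 = 2 * 3 ^ (n + 2) - 2 * (n + 3) * 2 ^ (n + 2) +
    (n + 2) * (n + 3) := by
  induction n with
  | zero => simp [ee, LL]
  | succ n ih => rw [ee_succ_two, ee_one]; push_cast at ih ⊢; linear_combination 3 * ih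

lemma ee_two_le (n : ℕ) : ee (n + 1) 2 ≤ 3 ^ (n + 2) := by
  have h := ee_two n
  have h1 : ((n : ℤ) + 2) * (n + 3) ≤ 2 * (n + 3) * 2 ^ (n + 2) := by
    have h2 : (n : ℤ) + 2 ≤ 2 ^ (n + 2) := by
      exact_mod_cast (Nat.lt_two_pow_self (n := n + 2)).le
    nlinarith
  linarith

lemma dd_succ_one (n : ℕ) : dd 1 (n + 2) 1 = 2 * dd 1 n 1 + n + 2 := by
  show (((0 : ℕ) + 2 : ℤ) * dd 1 n (0 + 1) + ((n + 1 - 0 : ℕ) : ℤ) * dd 1 n 0) + 1 * dd 1 n 0 = _
  rw [dd_zero]; push_cast; ring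

lemma dd_one_ge (n : ℕ) : (n : ℤ) ≤ dd 1 n 1 := by
  have := choose_le n 1
  rwa [Nat.choose_one_right] at this

/-- the first coefficients -/
lemma edge (n : ℕ) (hn : 9 ≤ n) : ((n : ℤ) + 2) * (dd 1 (n + 2) 1 - 1) + n + 3 ≤ 2 ^ (n + 2) ∧
    (n : ℤ) + 10 ≤ dd 1 (n + 2) 1 := by
  induction n using Nat.twoStepInduction with
  | zero => omega
  | one => omega
  | more n ih _ =>
    rcases Nat.lt_or_ge n 9 with h | h
    · have h1 : n = 7 ∨ n = 8 := by omega
      have d1 := dd_succ_one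
      have a1 : dd 1 1 1 = 1 := by simp [dd]
      have a0 : dd 1 0 1 = 0 := by simp [dd]
      have a2 := d1 0
      have a3 := d1 1
      have a4 := d1 2
      have a5 := d1 3
      have a6 := d1 4
      have a7 := d1 5
      have a8 := d1 6
      have a9 := d1 7
      have a10 := d1 8
      have a11 := d1 9
      have a12 := d1 10
      norm_num at a0 a1 a2 a3 a4 a5 a6 a7 a8 a9 a10 a11 a12
      rcases h1 with rfl | rfl
      · norm_num; constructor <;> linarith
      · norm_num; constructor <;> linarith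
    · obtain ⟨h1, h2⟩ := ih h
      have h3 := dd_succ_one (n + 2)
      push_cast at h3
      rw [h3]
      have e : (2 : ℤ) ^ (n + 2 + 2) = 4 * 2 ^ (n + 2) := by rw [pow_add (2 : ℤ) (n + 2) 2]; norm_num; ring
      rw [e]
      have h4 : (9 : ℤ) ≤ n := by exact_mod_cast h
      push_cast
      constructor
      · nlinarith
      · linarith

/-- the ratio -/
lemma ratio (n : ℕ) (hn : 9 ≤ n) : ∀ k, 1 ≤ k → k + 1 ≤ n → ((n : ℤ) + 2) * dd 1 n k ≤ ee n k := by
  induction n using Nat.twoStepInduction with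
  | zero => omega
  | one => omega
  | more n ih _ =>
    rcases Nat.lt_or_ge n 9 with h | h
    · have h1 : n = 7 ∨ n = 8 := by omega
      rcases h1 with rfl | rfl
      · intro k h2 h3
        have h4 : k ≤ 8 := by omega
        have key : ∀ k : Fin 9, 1 ≤ (k : ℕ) → ((9 : ℤ) + 2) * dd 1 9 k ≤ ee 9 k := by decide +kernel
        exact key ⟨k, by omega⟩ h2
      · intro k h2 h3
        have h4 : k ≤ 9 := by omega
        have key : ∀ k : Fin 10, 1 ≤ (k : ℕ) → ((10 : ℤ) + 2) * dd 1 10 k ≤ ee 10 k := by decide +kernel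
        exact key ⟨k, by omega⟩ h2
    · have ih := ih h
      have hD := dd_sy n
      have hE := ee_sy n
      have hM := LL_sy hD
      have hE1 := ee_sy (n + 1)
      have hE2 := ee_sy (n + 2)
      have hD2 := dd_sy (n + 2)
      obtain ⟨e1, e2⟩ := edge n h
      have hn0 : (9 : ℤ) ≤ n := by exact_mod_cast h
      -- the intermediate step
      have hm1 : ((n : ℤ) + 2) * LL n (dd 1 n) 1 ≤ ee (n + 1) 1 := by
        have h1 : dd 1 (n + 2) 1 = LL n (dd 1 n) 1 + 1 := by
          show LL n (dd 1 n) 1 + 1 * LL n (dd 1 n) 0 = _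
          have : LL n (dd 1 n) 0 = 1 := dd_zero 1 n
          rw [this]; ring
        have h2 : LL n (dd 1 n) 1 = dd 1 (n + 2) 1 - 1 := by linarith
        rw [h2, ee_one]
        push_cast
        linarith
      have hm : ∀ k, 1 ≤ k → k ≤ n → ((n : ℤ) + 2) * LL n (dd 1 n) k ≤ ee (n + 1) k := by
        intro k h1 h2
        rcases Nat.lt_or_ge 1 k with h3 | h3
        · rcases Nat.lt_or_ge k n with h4 | h4
          · obtain ⟨j, rfl⟩ : ∃ j, k = j + 1 := ⟨k - 1, by omega⟩
            show ((n : ℤ) + 2) * ((j + 2 : ℤ) * dd 1 n (j + 1) + ((n + 1 - j : ℕ) : ℤ) * dd 1 n j) ≤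
              (j + 2 : ℤ) * ee n (j + 1) + ((n + 1 - j : ℕ) : ℤ) * ee n j
            have i1 := ih (j + 1) (by omega) (by omega)
            have i2 := ih j (by omega) (by omega)
            have i3 : (0 : ℤ) ≤ (j + 2 : ℤ) := by positivity
            have i4 : (0 : ℤ) ≤ ((n + 1 - j : ℕ) : ℤ) := by positivity
            nlinarith [mul_le_mul_of_nonneg_left i1 i3, mul_le_mul_of_nonneg_left i2 i4]
          · have : k = n := by omega
            subst this
            rw [hM.sym k 1 (by omega), hE1.sym k 1 (by omega)]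
            exact hm1
        · have : k = 1 := by omega
          subst this
          exact hm1
      -- the edge
      have hed : ((n : ℤ) + 4) * dd 1 (n + 2) 1 ≤ ee (n + 2) 1 := by
        rw [ee_one]
        have e : (2 : ℤ) ^ (n + 2 + 1) = 2 * 2 ^ (n + 2) := by rw [pow_succ]; ring
        rw [e]
        push_cast
        nlinarith
      intro k h1 h2
      push_cast
      have e4 : (n : ℤ) + 2 + 2 = n + 4 := by ring
      rw [e4]
      rcases Nat.lt_or_ge 1 k with h3 | h3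
      · rcases Nat.lt_or_ge k (n + 1) with h4 | h4
        · obtain ⟨j, rfl⟩ : ∃ j, k = j + 1 := ⟨k - 1, by omega⟩
          show ((n : ℤ) + 4) * (LL n (dd 1 n) (j + 1) + 1 * LL n (dd 1 n) j) ≤
            (j + 2 : ℤ) * ee (n + 1) (j + 1) + ((n + 1 + 1 - j : ℕ) : ℤ) * ee (n + 1) j
          have i1 := hm (j + 1) (by omega) (by omega)
          have i2 := hm j (by omega) (by omega)
          have p1 := hE1.nn (j + 1)
          have p2 := hE1.nn j
          have q1 := hM.nn (j + 1)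
          have q2 := hM.nn j
          have i3 : (3 : ℤ) ≤ (j + 2 : ℤ) := by
            have : 1 ≤ j := by omega
            have : (1 : ℤ) ≤ j := by exact_mod_cast this
            linarith
          have i4 : (3 : ℤ) ≤ ((n + 1 + 1 - j : ℕ) : ℤ) := by
            have : 3 ≤ n + 1 + 1 - j := by omega
            exact_mod_cast this
          have j1 : 3 * ee (n + 1) (j + 1) ≤ (j + 2 : ℤ) * ee (n + 1) (j + 1) :=
            mul_le_mul_of_nonneg_right i3 p1
          have j2 : 3 * ee (n + 1) j ≤ ((n + 1 + 1 - j : ℕ) : ℤ) * ee (n + 1) j :=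
            mul_le_mul_of_nonneg_right i4 p2
          nlinarith
        · have : k = n + 1 := by omega
          subst this
          rw [hD2.sym (n + 1) 1 (by omega), hE2.sym (n + 1) 1 (by omega)]
          exact hed
      · have : k = 1 := by omega
        subst this
        exact hed

/-- the criterion, edge -/
lemma crit_edge (n : ℕ) (hn : 9 ≤ n) : (ee n 0 + dd 1 n 0) * (ee n 2 + dd 1 n 2) ≤
    (ee n 1 - dd 1 n 1) ^ 2 := by
  rw [ee_zero, dd_zero]
  have h1 := ratio n hn 1 le_rfl (by omega)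
  have h2 := ratio n hn 2 (by norm_num) (by omega)
  have hn0 : (9 : ℤ) ≤ n := by exact_mod_cast hn
  have hD := (dd_sy n).nn 2
  have h3 : dd 1 n 2 ≤ ee n 2 := by nlinarith
  obtain ⟨m, rfl⟩ : ∃ m, n = m + 1 := ⟨n - 1, by omega⟩
  have h4 := ee_two_le m
  have h5 : (2 : ℤ) ^ (m + 1) ≤ ee (m + 1) 1 - dd 1 (m + 1) 1 := by
    have h6 : ((m + 1 : ℕ) : ℤ) + 2 ≤ 2 ^ (m + 1) := by
      have h8 : 8 ≤ m := by omega
      have : m + 3 ≤ 2 ^ (m + 1) := by
        clear h1 h2 h3 h4 hD hn0 hn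
        induction m, h8 using Nat.le_induction with
        | base => norm_num
        | succ m hm ih => rw [pow_succ]; omega
      have h9 : ((m + 3 : ℕ) : ℤ) ≤ ((2 ^ (m + 1) : ℕ) : ℤ) := by exact_mod_cast this
      push_cast at h9 ⊢
      linarith
    have h7 := ee_one (m + 1)
    have e : (2 : ℤ) ^ (m + 1 + 1) = 2 * 2 ^ (m + 1) := by rw [pow_succ]; ring
    rw [e] at h7
    -- (n+2) d <= e,  e = 2^(n+1) - n - 2
    have h8 : ((m + 1 : ℕ) : ℤ) + 2 + dd 1 (m + 1) 1 ≤ 2 ^ (m + 1) := by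
      have h10 : (11 : ℤ) * dd 1 (m + 1) 1 ≤ 2 * 2 ^ (m + 1) := by
        have : (11 : ℤ) * dd 1 (m + 1) 1 ≤ (((m + 1 : ℕ) : ℤ) + 2) * dd 1 (m + 1) 1 :=
          mul_le_mul_of_nonneg_right (by linarith) ((dd_sy (m + 1)).nn 1)
        linarith
      have h11 : (2 : ℤ) * (((m + 1 : ℕ) : ℤ) + 2) ≤ 2 ^ (m + 1) := by
        have h8 : 8 ≤ m := by omega
        have : 2 * (m + 3) ≤ 2 ^ (m + 1) := by
          clear h1 h2 h3 h4 hD hn0 hn h6 h7 e h10
          induction m, h8 using Nat.le_induction with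
          | base => norm_num
          | succ m hm ih => rw [pow_succ]; omega
        have h9 : ((2 * (m + 3) : ℕ) : ℤ) ≤ ((2 ^ (m + 1) : ℕ) : ℤ) := by exact_mod_cast this
        push_cast at h9 ⊢
        linarith
      linarith
    linarith
  have h6 : (4 : ℤ) * 3 ^ (m + 2) ≤ (2 ^ (m + 1)) ^ 2 := by
    have h8 : 8 ≤ m := by omega
    have : 4 * 3 ^ (m + 2) ≤ (2 ^ (m + 1)) ^ 2 := by
      clear h1 h2 h3 h4 h5 hD hn0 hn
      induction m, h8 using Nat.le_induction with
      | base => norm_num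
      | succ m hm ih =>
        have e1 : 3 ^ (m + 1 + 2) = 3 * 3 ^ (m + 2) := by rw [← pow_succ']
        have e2 : (2 ^ (m + 1 + 1)) ^ 2 = 4 * (2 ^ (m + 1)) ^ 2 := by rw [pow_succ 2 (m + 1)]; ring
        rw [e1, e2]
        have : 0 < (2 ^ (m + 1)) ^ 2 := by positivity
        omega
    exact_mod_cast this
  have h7 : ((2 : ℤ) ^ (m + 1)) ^ 2 ≤ (ee (m + 1) 1 - dd 1 (m + 1) 1) ^ 2 :=
    pow_le_pow_left₀ (by positivity) h5 2
  linarith

/-- the criterion for `10` or more letters -/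
lemma crit_big (n : ℕ) (hn : 9 ≤ n) (k : ℕ) (h1 : 1 ≤ k) (h2 : k + 1 ≤ n) :
    dd 1 n k ≤ ee n k ∧
    (ee n (k - 1) + dd 1 n (k - 1)) * (ee n (k + 1) + dd 1 n (k + 1)) ≤ (ee n k - dd 1 n k) ^ 2 := by
  have hn0 : (9 : ℤ) ≤ n := by exact_mod_cast hn
  have hD := dd_sy n
  have hE := ee_sy n
  have hr := ratio n hn k h1 h2
  refine ⟨by nlinarith [hD.nn k], ?_⟩
  rcases Nat.lt_or_ge 1 k with h3 | h3
  · rcases Nat.lt_or_ge (k + 1) n with h4 | h4
    · have r1 := ratio n hn (k - 1) (by omega) (by omega)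
      have r2 := ratio n hn (k + 1) (by omega) (by omega)
      have hu := ulc' n k h1 h2
      have pk := hE.nn k
      have p1 := hE.nn (k - 1)
      have p2 := hE.nn (k + 1)
      have q1 := hD.nn (k - 1)
      have q2 := hD.nn (k + 1)
      set N : ℤ := (n : ℤ) + 2 with hN
      have hN0 : 0 < N := by linarith
      have s1 : N * (ee n (k - 1) + dd 1 n (k - 1)) ≤ (N + 1) * ee n (k - 1) := by linarith
      have s2 : N * (ee n (k + 1) + dd 1 n (k + 1)) ≤ (N + 1) * ee n (k + 1) := by linarith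
      have s3 : (N - 1) * ee n k ≤ N * (ee n k - dd 1 n k) := by linarith
      have t1 : N ^ 2 * ((ee n (k - 1) + dd 1 n (k - 1)) * (ee n (k + 1) + dd 1 n (k + 1))) ≤
          (N + 1) ^ 2 * (ee n (k - 1) * ee n (k + 1)) := by
        calc N ^ 2 * ((ee n (k - 1) + dd 1 n (k - 1)) * (ee n (k + 1) + dd 1 n (k + 1)))
            = (N * (ee n (k - 1) + dd 1 n (k - 1))) * (N * (ee n (k + 1) + dd 1 n (k + 1))) := by ring
          _ ≤ ((N + 1) * ee n (k - 1)) * ((N + 1) * ee n (k + 1)) :=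
              mul_le_mul s1 s2 (by positivity) (by positivity)
          _ = _ := by ring
      have t2 : (N - 1) ^ 2 * ee n k ^ 2 ≤ N ^ 2 * (ee n k - dd 1 n k) ^ 2 := by
        have : ((N - 1) * ee n k) ^ 2 ≤ (N * (ee n k - dd 1 n k)) ^ 2 :=
          pow_le_pow_left₀ (mul_nonneg (by linarith) pk) s3 2
        calc (N - 1) ^ 2 * ee n k ^ 2 = ((N - 1) * ee n k) ^ 2 := by ring
          _ ≤ _ := this
          _ = _ := by ring
      have t3 : (N + 1) ^ 2 * (ee n (k - 1) * ee n (k + 1)) ≤ (N - 1) ^ 2 * ee n k ^ 2 := by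
        have hu' : N ^ 2 * (ee n (k - 1) * ee n (k + 1)) ≤ (N - 2) ^ 2 * ee n k ^ 2 := by
          have e : (N - 2) = (n : ℤ) := by rw [hN]; ring
          rw [e]; exact hu
        have hpos : 0 < N ^ 2 := by positivity
        refine le_of_mul_le_mul_left ?_ hpos
        calc N ^ 2 * ((N + 1) ^ 2 * (ee n (k - 1) * ee n (k + 1)))
            = (N + 1) ^ 2 * (N ^ 2 * (ee n (k - 1) * ee n (k + 1))) := by ring
          _ ≤ (N + 1) ^ 2 * ((N - 2) ^ 2 * ee n k ^ 2) := mul_le_mul_of_nonneg_left hu' (sq_nonneg _)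
          _ = ((N + 1) * (N - 2)) ^ 2 * ee n k ^ 2 := by ring
          _ ≤ (N * (N - 1)) ^ 2 * ee n k ^ 2 := by
              refine mul_le_mul_of_nonneg_right ?_ (sq_nonneg _)
              refine pow_le_pow_left₀ (mul_nonneg (by linarith) (by linarith)) ?_ 2
              nlinarith
          _ = _ := by ring
      have hpos : 0 < N ^ 2 := by positivity
      exact le_of_mul_le_mul_left (t1.trans (t3.trans t2)) hpos
    · have hk : k + 1 = n := by omega
      have h5 := crit_edge n hn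
      rw [hE.sym k 1 (by omega), hD.sym k 1 (by omega), hE.sym (k + 1) 0 (by omega),
        hD.sym (k + 1) 0 (by omega), hE.sym (k - 1) 2 (by omega), hD.sym (k - 1) 2 (by omega)]
      rw [mul_comm]
      exact h5
  · have : k = 1 := by omega
    subst this
    exact crit_edge n hn

/-- the numbers which bound the differences -/
def mm (n k : ℕ) : ℤ := max |dd (-1) n k| (Nat.choose n k : ℤ)

/-- **the criterion** -/
theorem crit (n : ℕ) (k : ℕ) (h1 : 1 ≤ k) (h2 : k + 1 ≤ n) :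
    mm n k ≤ ee n k ∧
    (ee n (k - 1) + mm n (k - 1)) * (ee n (k + 1) + mm n (k + 1)) ≤ (ee n k - mm n k) ^ 2 := by
  rcases Nat.lt_or_ge n 9 with h | h
  · have key : ∀ n : Fin 9, ∀ k : Fin 9, 1 ≤ (k : ℕ) → (k : ℕ) + 1 ≤ n →
        mm n k ≤ ee n k ∧
        (ee n (k - 1) + mm n (k - 1)) * (ee n (k + 1) + mm n (k + 1)) ≤ (ee n k - mm n k) ^ 2 := by
      decide +kernel
    exact key ⟨n, h⟩ ⟨k, by omega⟩ h1 h2
  · have hm : ∀ k, mm n k ≤ dd 1 n k := fun k => max_le (abs_dd n k) (choose_le n k)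
    have hm0 : ∀ k, 0 ≤ mm n k := fun k => le_max_of_le_left (abs_nonneg _)
    obtain ⟨h3, h4⟩ := crit_big n h k h1 h2
    refine ⟨(hm k).trans h3, ?_⟩
    have hE := ee_sy n
    calc (ee n (k - 1) + mm n (k - 1)) * (ee n (k + 1) + mm n (k + 1))
        ≤ (ee n (k - 1) + dd 1 n (k - 1)) * (ee n (k + 1) + dd 1 n (k + 1)) := by
          refine mul_le_mul ?_ ?_ ?_ ?_
          · linarith [hm (k - 1)]
          · linarith [hm (k + 1)]
          · linarith [hE.nn (k + 1), hm0 (k + 1)]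
          · linarith [hE.nn (k - 1), (dd_sy n).nn (k - 1)]
      _ ≤ (ee n k - dd 1 n k) ^ 2 := h4
      _ ≤ (ee n k - mm n k) ^ 2 := by
          refine pow_le_pow_left₀ (by linarith) ?_ 2
          linarith [hm k]

end Pool.Agent.X17.Eul
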